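import Pool.Agent.TH337.VF.Side
import Pool.Agent.TH337.VF.Local

/-!
MP_8daebb_an: stationary varifolds, the region of constant density and its interface.
-/

namespace Pool.Agent.Results.MP_8daebb_an.StratifiedInterface

open MeasureTheory Set Filter Topology Metric Pool.Agent.TH337.VF
open scoped ENNReal RealInnerProductSpace

/-- The weight measure `μ` together with the field of tangent planes `T` is a stationary
`m`-dimensional varifold in `U`: `μ` is finite on compact subsets of `U`, the plane field is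
measurable, `T x` is an `m`-plane for `μ`-almost every `x` in `U`, and the first variation
vanishes. -/
structure IsStationaryVarifold {N : ℕ} (m : ℕ) (U : Set (EuclideanSpace ℝ (Fin N)))
    (μ : Measure (EuclideanSpace ℝ (Fin N)))
    (T : EuclideanSpace ℝ (Fin N) → Submodule ℝ (EuclideanSpace ℝ (Fin N))) : Prop where
  finite_compact : ∀ K ⊆ U, IsCompact K → μ K < ⊤
  measurable_plane : Measurable fun x => (T x).starProjection
  dim_plane : ∀ᵐ x ∂(μ.restrict U), Module.finrank ℝ (T x) = m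
  stationary : ∀ X : EuclideanSpace ℝ (Fin N) → EuclideanSpace ℝ (Fin N),
    ContDiff ℝ 1 X → HasCompactSupport X → tsupport X ⊆ U →
    ∫ x, LinearMap.trace ℝ (EuclideanSpace ℝ (Fin N))
      ((T x).starProjection ∘L fderiv ℝ X x :
        EuclideanSpace ℝ (Fin N) →L[ℝ] EuclideanSpace ℝ (Fin N)) ∂μ = 0

/-- The interface of `{Θ = Q}` and `{Θ ≠ Q}`: the points `z` of `U` such that both sets have
positive `μ`-measure in every ball about `z`. -/
def interface {N : ℕ} (m : ℕ) (U : Set (EuclideanSpace ℝ (Fin N)))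
    (μ : Measure (EuclideanSpace ℝ (Fin N))) (Q : ℝ≥0∞) : Set (EuclideanSpace ℝ (Fin N)) :=
  {z | z ∈ U ∧ ∀ r : ℝ, 0 < r →
    μ (ball z r ∩ {x | density m μ x = Q}) ≠ 0 ∧ μ (ball z r ∩ {x | density m μ x ≠ Q}) ≠ 0}

theorem result {N m : ℕ} (hm : 1 ≤ m) {U : Set (EuclideanSpace ℝ (Fin N))} (hU : IsOpen U)
    {μ : Measure (EuclideanSpace ℝ (Fin N))}
    {T : EuclideanSpace ℝ (Fin N) → Submodule ℝ (EuclideanSpace ℝ (Fin N))}
    (hV : IsStationaryVarifold m U μ T) (h1 : ∀ᵐ x ∂(μ.restrict U), 1 ≤ density m μ x)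
    {x₀ : EuclideanSpace ℝ (Fin N)} (hx₀ : x₀ ∈ U)
    (hpos : ∀ r : ℝ, 0 < r → μ (ball x₀ r ∩ {x | density m μ x = density m μ x₀}) ≠ 0)
    (C : ℕ → Set (EuclideanSpace ℝ (Fin N))) (hC : ∀ n, IsClosed (C n))
    (hC0 : ∀ n, μH[(m : ℝ) - 1] (C n) < ⊤)
    (hI : ∀ z ∈ interface m U μ (density m μ x₀), z ∉ ⋃ n, C n →
      upperDens m μ {x | density m μ x ≠ density m μ x₀} z < (1 / 2) ^ m ∨
      upperDens m μ {x | density m μ x = density m μ x₀} z < (1 / 2) ^ m * density m μ x₀)
    {Z : Set (EuclideanSpace ℝ (Fin N))} (hZ : μH[(m : ℝ) - 1] Z = 0)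
    (hI' : ∀ z ∈ interface m U μ (density m μ x₀), z ∈ ⋃ n, C n → z ∉ Z →
      upperDens m μ {x | density m μ x ≠ density m μ x₀} z = 0 ∨
      upperDens m μ {x | density m μ x = density m μ x₀} z = 0) :
    ∃ r : ℝ, 0 < r ∧ ∀ᵐ x ∂(μ.restrict (ball x₀ r)), density m μ x = density m μ x₀ := by
  have hS : Stat m U μ (fun x => (T x).starProjection) := by
    refine ⟨hV.finite_compact, hV.measurable_plane, ?_, ?_, ?_⟩
    · intro x
      exact Submodule.starProjection_norm_le _
    · filter_upwards [hV.dim_plane] with x hx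
      rw [trc_starProjection, hx]
    · intro X hX hc hXU
      exact hV.stationary X hX hc hXU
  set Q := density m μ x₀ with hQ
  have hQt : Q ≠ ⊤ := density_lt_top hS hU hx₀
  obtain ⟨δ, hδ, hδU, hδQ⟩ := density_usc hS hU hx₀
  set S : Set (EuclideanSpace ℝ (Fin N)) := {x | density m μ x = Q} with hSdef
  have hSc : Sᶜ = {x | density m μ x ≠ Q} := rfl
  have hcast : (m : ℝ) - 1 = ((m - 1 : ℕ) : ℝ) := by
    rw [Nat.cast_sub hm, Nat.cast_one]
  have hifc : ∀ z ∈ ifc (ball x₀ δ) μ S, z ∈ interface m U μ Q := by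
    intro z hz
    refine ⟨hδU hz.1, ?_⟩
    intro r hr
    refine ⟨fun h => hz.2 (Or.inl ⟨r, hr, h⟩), fun h => hz.2 (Or.inr ⟨r, hr, ?_⟩)⟩
    rw [hSc]
    exact h
  have hempty : ifc (ball x₀ δ) μ S = ∅ := by
    apply interface_empty' hm isOpen_ball (hS.sub hδU) (q := Q) (q' := 1) hQt ENNReal.one_ne_top
      ?_ ?_ hδQ C hC (fun n => by rw [← hcast]; exact (hC0 n).ne) (Z := Z) ?_ ?_ ?_
    · filter_upwards with x hx
      exact (show density m μ x = Q from hx).ge
    · filter_upwards [ae_restrict_of_ae_restrict_of_subset hδU h1] with x hx _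
      exact hx
    · rw [← hcast]
      exact hZ
    · intro z hz hzC hzZ
      exact (hI' z (hifc z hz) (mem_iUnion.2 hzC) hzZ).symm
    · intro z hz hzC
      have hzC' : z ∉ ⋃ n, C n := by
        rw [mem_iUnion, not_exists]
        exact hzC
      rcases hI z (hifc z hz) hzC' with h | h
      · right
        rw [mul_one]
        exact h
      · left
        exact h
  have hx₀n : x₀ ∈ nn μ S ∪ nn μ Sᶜ := by
    by_contra hcon
    have : x₀ ∈ ifc (ball x₀ δ) μ S := ⟨mem_ball_self hδ, hcon⟩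
    rw [hempty] at this
    exact this
  rcases hx₀n with ⟨r, hr, h⟩ | ⟨r, hr, h⟩
  · exact absurd h (hpos r hr)
  · refine ⟨r, hr, ?_⟩
    rw [ae_iff, Measure.restrict_apply' measurableSet_ball, inter_comm]
    exact h

end Pool.Agent.Results.MP_8daebb_an.StratifiedInterface
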